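import Pool.Agent.H71.L2.FpZero

/-!
# Torsion approximation for four products implies the Singer conjecture for `X`

`X` is a closed aspherical manifold of even dimension `2e` and `Y` a closed aspherical 3-manifold
with vanishing `L2`-Betti numbers and nonzero `L2`-torsion; both are orientable (Poincare duality
for the Betti numbers of the covers in one residual chain). If the limit formula of Q1 holds for
`Y`, `Y x Y x Y`, `X x Y` and `X x X x Y`, then the `L2`-Betti numbers of `X` vanish outside the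
middle degree and the middle one is `(-1)^e` times the Euler characteristic.
-/

set_option autoImplicit false

open scoped BigOperators
open MeasureTheory Pool.H3.L2

namespace Pool.Agent.H71.SingerEvenResult

/-- **Q1 implies the Singer conjecture in even dimensions.** -/
theorem result {e : ℕ}
    -- a closed orientable aspherical manifold of dimension `2e`
    (X : AsphericalMfd (2 * e)) (CX : BCx (GR X.Γ)) (hCX : CX.IsRes) (cX : ResChain X.Γ)
    (hdX : DualBetti ℝ CX cX (2 * e)) (μ : ℕ → Measure ℝ) (hμ : ∀ j, CX.IsSpectral j (μ j))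
    -- a closed orientable aspherical 3-manifold, `L2`-acyclic with nonzero `L2`-torsion
    (Y : AsphericalMfd 3) (CY : BCx (GR Y.Γ)) (hCY : CY.IsRes) (cY : ResChain Y.Γ)
    (hdY : ∀ (K : Type) [Field K], DualBetti K CY cY 3)
    (ν : ℕ → Measure ℝ) (hν : ∀ j, CY.IsSpectral j (ν j)) (hν0 : ∀ j, ν j {0} = 0)
    (hρ : CY.rho ν ≠ 0)
    -- the conclusion of Q1 for `Y`, `Y × Y × Y`, `X × Y` and `(X × X) × Y`
    (hY : Q1At Y 1)
    (hYYY : Q1At (Y.prod (Y.prod Y (n := 6) rfl) (n := 9) rfl) 4)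
    (hXY : Q1At (X.prod Y (n := 2 * e + 3) rfl) (e + 1))
    (hXXY : Q1At ((X.prod X (two_mul (2 * e)).symm).prod Y (n := 2 * (2 * e) + 3) rfl)
      (2 * e + 1)) :
    (∀ l, l ≠ e → (μ l).real {0} = 0) ∧
      (μ e).real {0} = (-1) ^ e * ((∑ s : CX.S, (-1 : ℤ) ^ CX.deg s : ℤ) : ℝ) ∧
      0 ≤ (-1) ^ e * ∑ s : CX.S, (-1 : ℤ) ^ CX.deg s := by
  have h := Pool.H71.L2.singer_even (m := 2 * e) X Y rfl (two_mul (2 * e)).symm rfl CX hCX cX hdX
    μ hμ CY hCY cY hdY ν hν hν0 hρ
    (fun p _ j => Pool.H71.L2.fp_zero Y hYYY CY hCY cY hdY ν hν hν0 p j) hY hXY hXXY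
  refine ⟨h.1, h.2, ?_⟩
  have h2 : (0 : ℝ) ≤ (-1) ^ e * ((∑ s : CX.S, (-1 : ℤ) ^ CX.deg s : ℤ) : ℝ) :=
    h.2 ▸ measureReal_nonneg
  exact_mod_cast h2

end Pool.Agent.H71.SingerEvenResult
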